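import Mathlib
import Pool.Agent.Q38.GE.Stm

/-!
# Job GE-H0 (project GE of helper38)
-/

set_option autoImplicit false

namespace Pool.Agent.Q40.GEH0

open Matrix Q38.GE

variable {K : Type} [Field K] {n : ℕ}

lemma mem_wds {N : ℕ} {u : Wd n} : u ∈ wds n N ↔ u.length < N := by
  induction N generalizing u with
  | zero => simp [wds]
  | succ N ih =>
    cases u with
    | nil => simp [wds]
    | cons i u => simp [wds, ih]

lemma sum_wds_succ {B : Type} [AddCommMonoid B] (N : ℕ) (F : Wd n → B) :
    ∑ u ∈ wds n (N + 1), F u = F [] + ∑ i, ∑ u ∈ wds n N, F (i :: u) := by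
  rw [wds, Finset.sum_insert, Finset.sum_image, Finset.sum_product]
  · intro p _ q _ h
    simpa [Prod.ext_iff] using h
  · simp

lemma sum_wds_reverse {B : Type} [AddCommMonoid B] (N : ℕ) (F : Wd n → B) :
    ∑ u ∈ wds n N, F u.reverse = ∑ u ∈ wds n N, F u := by
  apply Finset.sum_nbij' List.reverse List.reverse <;> simp [mem_wds]

lemma expand (h1 : S_TR) (M : ℕ) (a : A K n) (ha : ∀ u : Wd n, M ≤ u.length → trw u a = 0) :
    a = ∑ u ∈ wds n M, ep (trw u a) • mon K u := by
  induction M generalizing a with
  | zero => simpa [wds, trw] using ha [] (by simp)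
  | succ M ih =>
    rw [sum_wds_succ]
    have h := (h1 K n).1 a
    have e1 : ep (trw [] a) • mon K ([] : Wd n) = algebraMap K _ (ep a) := by
      simp [trw, mon, Algebra.algebraMap_eq_smul_one]
    have e2 : ∀ i, x K i * tr i a = ∑ u ∈ wds n M, ep (trw (i :: u) a) • mon K (i :: u) := by
      intro i
      have := ih (tr i a) (fun u hu => by
        have := ha (i :: u) (by simp; omega)
        simpa [trw] using this)
      conv_lhs => rw [this]
      rw [Finset.mul_sum]
      apply Finset.sum_congr rfl
      intro u _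
      rw [mul_smul_comm]
      simp [trw, mon]
    rw [e1, ← Finset.sum_congr rfl (fun i _ => e2 i)]
    exact h

lemma ev_mon {R : Type} [Ring R] [Algebra K R] (Y : Fin n → R) (u : Wd n) :
    ev Y (mon K u) = mo Y u := by
  unfold ev mon mo
  rw [map_list_prod, List.map_map]
  congr 1
  apply List.map_congr_left
  intro i _
  simp [x]

lemma ev_expand (h1 : S_TR) (M : ℕ) (a : A K n) (ha : ∀ u : Wd n, M ≤ u.length → trw u a = 0)
    {R : Type} [Ring R] [Algebra K R] (Y : Fin n → R) :
    ev Y a = ∑ u ∈ wds n M, ep (trw u a) • mo Y u := by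
  conv_lhs => rw [expand h1 M a ha]
  rw [map_sum]
  apply Finset.sum_congr rfl
  intro u _
  rw [map_smul, ev_mon]

lemma conv {B : Type} [AddCommMonoid B] (N1 N2 M : ℕ) (hM : N1 + N2 ≤ M) (F : Wd n → Wd n → B)
    (hF : ∀ v u, (N1 ≤ v.length ∨ N2 ≤ u.length) → F v u = 0) :
    ∑ v ∈ wds n N1, ∑ u ∈ wds n N2, F v u =
      ∑ z ∈ wds n M, ∑ k ∈ Finset.range (z.length + 1), F (z.take k) (z.drop k) := by
  rw [← Finset.sum_product', Finset.sum_sigma']
  refine Finset.sum_bij_ne_zero (fun p _ _ => ⟨p.1 ++ p.2, p.1.length⟩) ?_ ?_ ?_ ?_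
  · intro p hp _
    rw [Finset.mem_product, mem_wds, mem_wds] at hp
    rw [Finset.mem_sigma, mem_wds]
    simp only [List.length_append, Finset.mem_range]
    omega
  · intro p _ _ q _ _ h
    simp only [Sigma.mk.injEq, heq_eq_eq] at h
    have := List.append_inj h.1 h.2
    exact Prod.ext this.1 this.2
  · rintro ⟨z, k⟩ hz hne
    rw [Finset.mem_sigma, mem_wds] at hz
    simp only [Finset.mem_range] at hz
    refine ⟨(z.take k, z.drop k), ?_, hne, ?_⟩
    · rw [Finset.mem_product, mem_wds, mem_wds]
      by_contra hcon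
      apply hne
      apply hF
      simp only [not_and_or, not_lt] at hcon
      exact hcon
    · simp only [Sigma.mk.injEq, heq_eq_eq, List.take_append_drop, List.length_take, true_and]
      omega
  · intro p _ _
    simp

/-- the matrix with the coefficients `α u` at the reversed words -/
noncomputable def PP (N : ℕ) (α : Wd n → Matrix (Fin n) (Fin n) K) :
    Matrix (Fin n) (Fin n) (A K n) := fun i j => ∑ u ∈ wds n N, α u i j • mon K u.reverse

lemma mon_append (u v : Wd n) : mon K (u ++ v) = mon K u * mon K v := by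
  simp [mon]

lemma mul_PP (N M : ℕ) (α β : Wd n → Matrix (Fin n) (Fin n) K) (i j : Fin n) :
    (PP N α * PP M β) i j =
      ∑ u ∈ wds n N, ∑ v ∈ wds n M, (α u * β v) i j • mon K (v ++ u).reverse := by
  rw [Matrix.mul_apply]
  unfold PP
  simp only [Finset.sum_mul_sum]
  rw [Finset.sum_comm]
  apply Finset.sum_congr rfl
  intro u _
  rw [Finset.sum_comm]
  apply Finset.sum_congr rfl
  intro v _
  rw [Matrix.mul_apply, Finset.sum_smul]
  apply Finset.sum_congr rfl
  intro l _
  rw [List.reverse_append, mon_append, smul_mul_smul_comm]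

lemma sum_delta (M : ℕ) (hM : 1 ≤ M) (i j : Fin n) (α : Wd n → Matrix (Fin n) (Fin n) K)
    (h : ∀ z, α z = if z = [] then 1 else 0) :
    ∑ z ∈ wds n M, α z i j • mon K z.reverse = (1 : Matrix (Fin n) (Fin n) (A K n)) i j := by
  rw [Finset.sum_eq_single ([] : Wd n)]
  · rw [h [], if_pos rfl]
    by_cases hij : i = j
    · subst hij
      simp [mon]
    · simp [Matrix.one_apply_ne hij]
  · intro z _ hz
    rw [h z, if_neg hz]
    simp
  · intro h
    exact absurd (mem_wds.2 (by simp only [List.length_nil]; omega)) h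

/-- `M * k = k • M` for a scalar `1 × 1` matrix -/
lemma mul_scal {L : Type} [Field L] [Algebra K L] {r : Type} [Fintype r]
    (W : Matrix r (Fin 1) L) (k : K) :
    W * (algebraMap K (Matrix (Fin 1) (Fin 1) L) k) = k • W := by
  rw [Algebra.algebraMap_eq_smul_one, Matrix.mul_smul, Matrix.mul_one]

lemma mo_transpose {L : Type} [Field L] {r : Type} [Fintype r] [DecidableEq r]
    (X : Fin n → Matrix r r L) (u : Wd n) : (mo (fun i => (X i)ᵀ) u)ᵀ = mo X u.reverse := by
  induction u with
  | nil => simp [mo]
  | cons i u ih =>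
    have e1 : mo (fun i => (X i)ᵀ) (i :: u) = (X i)ᵀ * mo (fun i => (X i)ᵀ) u := by simp [mo]
    have e2 : mo X (i :: u).reverse = mo X u.reverse * X i := by simp [mo]
    rw [e1, e2, Matrix.transpose_mul, ih, Matrix.transpose_transpose]

lemma dl_zero (h2 : S_DLF) {L : Type} [Field L] [Algebra K L] {s : Type} [Fintype s]
    [DecidableEq s] (Y : Fin n → Matrix s s L) (W : Fin n → Matrix (Fin 1) s L) (a : A K n)
    (N : ℕ) (hN : 1 ≤ N) (ha : ∀ u : Wd n, N ≤ u.length → trw u a = 0) :
    dl (fun _ => (0 : Matrix (Fin 1) (Fin 1) L)) Y W a = ∑ j, W j * ev Y (tr j a) := by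
  rw [h2 K n L (Fin 1) s _ Y W a N ha, Finset.sum_eq_single ([] : Wd n)]
  · apply Finset.sum_congr rfl
    intro j _
    simp [mo, trw]
  · intro u _ hu
    apply Finset.sum_eq_zero
    intro j _
    cases u with
    | nil => exact absurd rfl hu
    | cons i u => simp [mo]
  · intro h
    exact absurd (mem_wds.2 (by simp only [List.length_nil]; omega)) h

/-- the coefficient matrices of `H_[]` -/
noncomputable def hv (φ : A K n →ₐ[K] A K n) (v : Wd n) : Matrix (Fin n) (Fin n) K :=
  fun j i => ep (trw v (Hm φ [] j i))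

lemma bound (h1 : S_TR) {ι : Type} [Fintype ι] (a : ι → A K n) :
    ∃ N : ℕ, ∀ i, ∀ u : Wd n, N ≤ u.length → trw u (a i) = 0 := by
  choose N hN using fun i => (h1 K n).2.2.2.2.1 (a i)
  refine ⟨∑ i, N i, fun i u hu => hN i u (le_trans ?_ hu)⟩
  exact Finset.single_le_sum (f := N) (fun _ _ => Nat.zero_le _) (Finset.mem_univ i)

theorem h0 (h1 : S_TR) (h2 : S_DLF) (h3 : S_GEO) (h4 : S_PEN) (h5 : S_REG) : S_H0 := by
  intro K _ n φ hJ
  -- bounds of the degrees
  obtain ⟨N1, hN1⟩ := bound h1 (fun i => φ (x K i))
  obtain ⟨N2, hN2⟩ := bound h1 (fun p : Fin n × Fin n => Hm φ [] p.1 p.2)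
  obtain ⟨d, hd⟩ : ∃ d, d = N1 + N2 + 1 := ⟨_, rfl⟩
  have hf : ∀ i, ∀ u : Wd n, d ≤ u.length → trw u (φ (x K i)) = 0 :=
    fun i u hu => hN1 i u (by omega)
  have hH : ∀ j i, ∀ u : Wd n, d + 1 ≤ u.length → trw u (Hm φ [] j i) = 0 :=
    fun j i u hu => hN2 (j, i) u (by omega)
  have hHt : ∀ j i, tr j (φ (x K i)) = Hm φ [] j i := fun j i => by simp [Hm, trw]
  have hvz : ∀ v : Wd n, d + 1 ≤ v.length → hv φ v = 0 := by
    intro v hv'
    ext j i
    simp [hv, hH j i v hv']
  -- the constant term is invertible
  have hdet : IsUnit (hv φ []) := by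
    rw [← Matrix.vecMul_injective_iff_isUnit, ← Matrix.coe_vecMulLinear, ← LinearMap.ker_eq_bot,
      LinearMap.ker_eq_bot']
    intro w hw
    have hw' : ∀ i, ∑ j, w j * hv φ [] j i = 0 := by
      intro i
      have := congrFun hw i
      simpa [Matrix.vecMul, dotProduct] using this
    have := hJ K (Fin 1) (Fin 1) (fun _ => 0) (fun _ => 0) (fun i => fun _ _ => w i) (by
      intro i
      rw [dl_zero h2 _ _ _ d (by omega) (hf i)]
      have e : ∀ j, ev (fun _ => (0 : Matrix (Fin 1) (Fin 1) K)) (tr j (φ (x K i))) =
          (algebraMap K (Matrix (Fin 1) (Fin 1) K)) (hv φ [] j i) := by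
        intro j
        rw [hHt, ev_expand h1 (d + 1) _ (hH j i), Finset.sum_eq_single ([] : Wd n)]
        · simp [mo, hv, trw, Algebra.algebraMap_eq_smul_one]
        · intro u _ hu
          cases u with
          | nil => exact absurd rfl hu
          | cons i u => simp [mo]
        · intro h
          exact absurd (mem_wds.2 (by simp)) h
      simp only [e, mul_scal]
      ext a b
      rw [Matrix.sum_apply]
      simp only [Matrix.smul_apply, smul_eq_mul, Matrix.zero_apply]
      rw [← hw' i]
      apply Finset.sum_congr rfl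
      intro j _
      exact mul_comm _ _)
    funext i
    have := congrFun (congrFun (this i) 0) 0
    simpa using this
  have hdet' : IsUnit (hv φ []).det := (Matrix.isUnit_iff_isUnit_det _).1 hdet
  obtain ⟨B, hB⟩ : ∃ B, B = (hv φ [])⁻¹ := ⟨_, rfl⟩
  have hB1 : hv φ [] * B = 1 := by rw [hB]; exact Matrix.mul_nonsing_inv _ hdet'
  have hB2 : B * hv φ [] = 1 := by rw [hB]; exact Matrix.nonsing_inv_mul _ hdet'
  -- the system
  obtain ⟨c, hc⟩ : ∃ c : Wd n → Matrix (Fin n) (Fin n) K, c = fun u => -(hv φ u.reverse * B) :=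
    ⟨_, rfl⟩
  have hcz : ∀ u, d < u.length → c u = 0 := by
    intro u hu
    rw [hc]
    simp only
    rw [hvz u.reverse (by rw [List.length_reverse]; omega)]
    simp
  obtain ⟨g, hg0, hg1, hg2⟩ := h3 (Matrix (Fin n) (Fin n) K) n c
  -- nilpotency
  have hnil : ∀ w : Wd n, w ≠ [] → IsNilpotent ((w.map (QM d c)).prod) := by
    intro w hw
    obtain ⟨ρ, hρ⟩ : ∃ ρ : K →+* Matrix (Fin 1) (Fin 1) (AlgebraicClosure K),
      ρ = algebraMap K (Matrix (Fin 1) (Fin 1) (AlgebraicClosure K)) := ⟨_, rfl⟩
    have hρi : Function.Injective ρ := ρ.injective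
    obtain ⟨cL, hcL⟩ : ∃ cL : Wd n → Matrix (Fin n) (Fin n)
        (Matrix (Fin 1) (Fin 1) (AlgebraicClosure K)), cL = fun u => (c u).map ρ := ⟨_, rfl⟩
    have hR := h5 (AlgebraicClosure K) n n 1 d cL (by omega) (by
      intro u hu
      rw [hcL]
      simp only
      rw [hcz u hu]
      ext a b : 2
      simp) (by
      intro r X W hW
      have key : ∀ b, ∑ u ∈ wds n (d + 1), ∑ a, (hv φ u.reverse * B) a b • (mo X u * W a) = 0 := by
        intro b
        have hmem : ([] : Wd n) ∈ wds n (d + 1) := mem_wds.2 (by simp)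
        rw [← Finset.add_sum_erase _ _ hmem]
        have e0 : ∑ a, (hv φ ([] : Wd n).reverse * B) a b • (mo X ([] : Wd n) * W a) = W b := by
          rw [List.reverse_nil, hB1, Finset.sum_eq_single b]
          · simp [mo]
          · intro a _ hab
            simp [Matrix.one_apply_ne hab]
          · simp
        have e1 : ∑ u ∈ (wds n (d + 1)).erase [], ∑ a,
            (hv φ u.reverse * B) a b • (mo X u * W a) = - W b := by
          rw [hW b, ← Finset.sum_neg_distrib]
          apply Finset.sum_congr rfl
          intro u _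
          rw [← Finset.sum_neg_distrib]
          apply Finset.sum_congr rfl
          intro a _
          rw [hcL, hc, hρ]
          simp only [Matrix.map_apply, Matrix.neg_apply, map_neg, Matrix.mul_neg, neg_neg]
          rw [mul_scal]
        rw [e0, e1, add_neg_cancel]
      have key2 : ∀ i, ∑ u ∈ wds n (d + 1), ∑ a, hv φ u.reverse a i • (mo X u * W a) = 0 := by
        intro i
        have : ∀ u : Wd n, ∀ a, hv φ u.reverse a i = ∑ b, (hv φ u.reverse * B) a b * hv φ [] b i := by
          intro u a
          rw [← Matrix.mul_apply, Matrix.mul_assoc, hB2, Matrix.mul_one]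
        calc ∑ u ∈ wds n (d + 1), ∑ a, hv φ u.reverse a i • (mo X u * W a)
            = ∑ u ∈ wds n (d + 1), ∑ a, ∑ b,
                hv φ [] b i • ((hv φ u.reverse * B) a b • (mo X u * W a)) := by
              apply Finset.sum_congr rfl
              intro u _
              apply Finset.sum_congr rfl
              intro a _
              rw [this u a, Finset.sum_smul]
              apply Finset.sum_congr rfl
              intro b _
              rw [smul_smul, mul_comm]
          _ = ∑ b, hv φ [] b i • ∑ u ∈ wds n (d + 1), ∑ a,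
                (hv φ u.reverse * B) a b • (mo X u * W a) := by
              simp only [Finset.smul_sum]
              refine Eq.symm (Finset.sum_comm.trans ?_)
              apply Finset.sum_congr rfl
              intro u _
              exact Finset.sum_comm
          _ = 0 := by
              apply Finset.sum_eq_zero
              intro b _
              rw [key b, smul_zero]
      have hz := hJ (AlgebraicClosure K) (Fin 1) (Fin r) (fun _ => 0) (fun i => (X i)ᵀ)
        (fun i => (W i)ᵀ) (by
        intro i
        rw [dl_zero h2 _ _ _ d (by omega) (hf i)]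
        rw [← Matrix.transpose_inj, Matrix.transpose_zero, Matrix.transpose_sum, ← key2 i]
        rw [Finset.sum_comm]
        apply Finset.sum_congr rfl
        intro j _
        rw [hHt, ev_expand h1 (d + 1) _ (hH j i), Matrix.mul_sum, Matrix.transpose_sum,
          ← sum_wds_reverse]
        apply Finset.sum_congr rfl
        intro u _
        rw [Matrix.transpose_mul, Matrix.transpose_transpose, Matrix.transpose_smul, mo_transpose,
          List.reverse_reverse, Matrix.smul_mul]
        rfl)
      intro b
      have := congrArg Matrix.transpose (hz b)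
      simpa using this) w hw
    have hmap : (w.map (QM d cL)).prod = ρ.mapMatrix ((w.map (QM d c)).prod) := by
      rw [map_list_prod, List.map_map]
      congr 1
      apply List.map_congr_left
      intro i _
      ext s t : 2
      simp only [Function.comp, RingHom.mapMatrix_apply, Matrix.map_apply, QM, hcL]
      split_ifs <;> simp
    rw [hmap] at hR
    obtain ⟨m, hm⟩ := hR
    refine ⟨m, ?_⟩
    rw [← map_pow] at hm
    have hinj : Function.Injective (ρ.mapMatrix (m := {u // u ∈ wds n d} × Fin n)) := by
      intro a b hab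
      ext s t
      have := congrFun (congrFun hab s) t
      simp only [RingHom.mapMatrix_apply, Matrix.map_apply] at this
      exact hρi this
    exact hinj (by rw [hm, map_zero])
  have hgz := h4 K n n d c (by omega) hcz hnil g hg0 hg2
  obtain ⟨M, hM⟩ : ∃ M, M = (wds n d).card * n := ⟨_, rfl⟩
  rw [← hM] at hgz
  -- the recursions
  have hr1 : ∀ z : Wd n, ∑ k ∈ Finset.range (z.length + 1),
      hv φ (z.drop k).reverse * (B * g (z.take k)) = if z = [] then 1 else 0 := by
    intro z
    by_cases hz : z = []
    · subst hz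
      simp [hg0, hB1]
    · rw [if_neg hz, Finset.sum_range_succ, List.drop_length, List.take_length, List.reverse_nil,
        ← Matrix.mul_assoc, hB1, Matrix.one_mul]
      conv_lhs => rw [hg1 z hz]
      rw [← Finset.sum_add_distrib]
      apply Finset.sum_eq_zero
      intro k _
      rw [hc]
      simp only
      rw [← Matrix.mul_assoc, Matrix.neg_mul, add_neg_cancel]
  have hr2 : ∀ z : Wd n, ∑ k ∈ Finset.range (z.length + 1),
      B * g (z.drop k) * hv φ (z.take k).reverse = if z = [] then 1 else 0 := by
    intro z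
    by_cases hz : z = []
    · subst hz
      simp [hg0, hB2]
    · rw [if_neg hz, Finset.sum_range_succ']
      simp only [List.drop_zero, List.take_zero, List.reverse_nil]
      have e : B * g z * hv φ [] = - ∑ k ∈ Finset.range z.length,
          B * g (z.drop (k + 1)) * hv φ (z.take (k + 1)).reverse := by
        conv_lhs => rw [hg2 z hz]
        rw [Finset.mul_sum, Finset.sum_mul, ← Finset.sum_neg_distrib]
        apply Finset.sum_congr rfl
        intro k _
        rw [hc]
        simp only
        rw [Matrix.mul_neg, Matrix.mul_neg, Matrix.neg_mul]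
        congr 1
        simp only [Matrix.mul_assoc]
        rw [hB2, Matrix.mul_one]
      rw [e, add_neg_cancel]
  have hHPP : Hm φ [] = PP (d + 1) (fun u => hv φ u.reverse) := by
    ext j i
    unfold PP
    rw [sum_wds_reverse (d + 1) (fun u => hv φ u j i • mon K u)]
    exact expand h1 (d + 1) _ (hH j i)
  refine ⟨PP M (fun u => B * g u), ?_, ?_⟩
  · rw [hHPP]
    ext i j
    rw [mul_PP, Finset.sum_comm, conv M (d + 1) (M + (d + 1)) le_rfl
      (fun v u => (hv φ u.reverse * (B * g v)) i j • mon K (v ++ u).reverse)]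
    · simp only [List.take_append_drop, ← Finset.sum_smul]
      rw [← sum_delta (M + (d + 1)) (by omega) i j _ hr1]
      apply Finset.sum_congr rfl
      intro z _
      rw [Matrix.sum_apply]
    · intro v u h
      rcases h with h | h
      · rw [hgz v h]
        simp
      · rw [hvz u.reverse (by rw [List.length_reverse]; omega)]
        simp
  · rw [hHPP]
    ext i j
    rw [mul_PP, Finset.sum_comm, conv (d + 1) M (d + 1 + M) le_rfl
      (fun v u => (B * g u * hv φ v.reverse) i j • mon K (v ++ u).reverse)]
    · simp only [List.take_append_drop, ← Finset.sum_smul]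
      rw [← sum_delta (d + 1 + M) (by omega) i j _ hr2]
      apply Finset.sum_congr rfl
      intro z _
      rw [Matrix.sum_apply]
    · intro v u h
      rcases h with h | h
      · rw [hvz v.reverse (by rw [List.length_reverse]; omega)]
        simp
      · rw [hgz u h]
        simp

end Pool.Agent.Q40.GEH0
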